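import Pool.Agent.LE.StmtsQ

/-!
Row ENI of the squad LSC: the energy identity (ground state representation).
-/

set_option autoImplicit false

noncomputable section

namespace Pool.Agent.LE.CL.H77

open Pool.Agent.Anderson Pool.Agent.Loc Pool.Agent.Mob Pool.Agent.Helper54.Bal
  Pool.Agent.Helper96.EXP Pool.Agent.BED

theorem eni (hS : SbpStmt) : EniStmt := by
  intro d V ω φ b r z k hφ hω
  have h1 := (hS d (fun x y => ω x * ω y * φ x * (φ x - φ y)) b r (fun x hx y => by
    show ω x * ω y * φ x * (φ x - φ y) = 0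
    rw [hφ x hx]
    ring)).1
  have h2 : ∀ x ∈ box b r,
      ω x * φ x * ((z - V x) * (ω x * φ x) - nb (fun y => ω y * φ y) x) =
        ∑ i : Fin d, (ω x * ω (x + Pi.single i 1) * φ x * (φ x - φ (x + Pi.single i 1)) +
          ω x * ω (x - Pi.single i 1) * φ x * (φ x - φ (x - Pi.single i 1))) +
        k * (ω x * φ x ^ 2) := by
    intro x hx
    have e0 : (z - V x) * (ω x * φ x) = φ x * (k + nb ω x) := by
      rw [← hω x hx]
      ring
    rw [e0]
    have e1 : φ x * nb ω x - nb (fun y => ω y * φ y) x =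
        ∑ i : Fin d, (ω (x + Pi.single i 1) * (φ x - φ (x + Pi.single i 1)) +
          ω (x - Pi.single i 1) * (φ x - φ (x - Pi.single i 1))) := by
      unfold nb
      rw [Finset.mul_sum, ← Finset.sum_sub_distrib]
      refine Finset.sum_congr rfl fun i _ => ?_
      ring
    have e2 : φ x * (k + nb ω x) - nb (fun y => ω y * φ y) x = k * φ x +
        ∑ i : Fin d, (ω (x + Pi.single i 1) * (φ x - φ (x + Pi.single i 1)) +
          ω (x - Pi.single i 1) * (φ x - φ (x - Pi.single i 1))) := by
      rw [← e1]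
      ring
    rw [e2, mul_add, Finset.mul_sum]
    have e3 : ∑ i : Fin d, ω x * φ x * (ω (x + Pi.single i 1) * (φ x - φ (x + Pi.single i 1)) +
          ω (x - Pi.single i 1) * (φ x - φ (x - Pi.single i 1))) =
        ∑ i : Fin d, (ω x * ω (x + Pi.single i 1) * φ x * (φ x - φ (x + Pi.single i 1)) +
          ω x * ω (x - Pi.single i 1) * φ x * (φ x - φ (x - Pi.single i 1))) :=
      Finset.sum_congr rfl fun i _ => by ring
    rw [e3]
    ring
  rw [Finset.sum_congr rfl h2, Finset.sum_add_distrib, h1, ← Finset.mul_sum]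
  congr 1
  refine Finset.sum_congr rfl fun x _ => Finset.sum_congr rfl fun i _ => ?_
  ring

end Pool.Agent.LE.CL.H77
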